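import Pool.Agent.Helper51.PP.Spec

set_option autoImplicit false

noncomputable section

namespace Pool.Agent.Helper96.PC.DET

open Pool.Agent.Helper51.PP
open MeasureTheory ProbabilityTheory Filter Topology
open scoped ENNReal BigOperators

variable {d : ℕ}

lemma N1_nonneg (v : Fin d → ℤ) : 0 ≤ N1 v := Finset.sum_nonneg fun _ _ => abs_nonneg _

lemma N1_dirVec (e : Fin d × Bool) : N1 (dirVec e) = 1 := by
  unfold N1 dirVec
  rcases e with ⟨i, b⟩
  cases b
  · simp only [Bool.false_eq_true, if_false, Pi.neg_apply, Int.cast_neg, abs_neg]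
    rw [Finset.sum_eq_single i]
    · simp
    · intro j _ hj
      rw [Pi.single_eq_of_ne hj]; simp
    · simp
  · simp only [if_true]
    rw [Finset.sum_eq_single i]
    · simp
    · intro j _ hj
      rw [Pi.single_eq_of_ne hj]; simp
    · simp

lemma N1_add (v w : Fin d → ℤ) : N1 (v + w) ≤ N1 v + N1 w := by
  unfold N1
  rw [← Finset.sum_add_distrib]
  refine Finset.sum_le_sum fun i _ => ?_
  push_cast [Pi.add_apply]
  exact abs_add_le _ _

lemma N1_neg (v : Fin d → ℤ) : N1 (-v) = N1 v := by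
  unfold N1
  refine Finset.sum_congr rfl fun i _ => ?_
  push_cast [Pi.neg_apply]
  exact abs_neg _

lemma N1_smul (k : ℕ) (v : Fin d → ℤ) : N1 ((k : ℤ) • v) = k * N1 v := by
  unfold N1
  rw [Finset.mul_sum]
  refine Finset.sum_congr rfl fun i _ => ?_
  simp only [Pi.smul_apply, smul_eq_mul]
  push_cast
  rw [abs_mul, abs_of_nonneg (Nat.cast_nonneg k : (0 : ℝ) ≤ k)]

lemma N1_step (ω : Conf d) (v : Fin d → ℤ) (e : Fin d × Bool) :
    |N1 (nextPt ω v e) - N1 v| ≤ (gap ω v e : ℝ) := by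
  have h0 : N1 ((gap ω v e : ℤ) • dirVec e) = (gap ω v e : ℝ) := by
    rw [N1_smul, N1_dirVec, mul_one]
  rw [abs_le]
  constructor
  · have h1 : N1 v ≤ N1 (nextPt ω v e) + N1 (-((gap ω v e : ℤ) • dirVec e)) := by
      have := N1_add (nextPt ω v e) (-((gap ω v e : ℤ) • dirVec e))
      have e1 : nextPt ω v e + -((gap ω v e : ℤ) • dirVec e) = v := by
        unfold nextPt; abel
      rwa [e1] at this
    rw [N1_neg, h0] at h1
    linarith
  · have h1 := N1_add v ((gap ω v e : ℤ) • dirVec e)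
    rw [h0] at h1
    unfold nextPt
    linarith

lemma Vf_le (ω : Conf d) (hω : Good ω) (v : Occ ω) :
    Vf (grad (nxO ω hω) (fun v : Occ ω => N1 v.1)) v ≤ g2 ω v.1 := by
  unfold Vf g2 grad
  refine mul_le_mul_of_nonneg_left (Finset.sum_le_sum fun e _ => ?_) (by positivity)
  have h := N1_step ω v.1 e
  have h1 : (N1 ((nxO ω hω v e).1) - N1 v.1) ^ 2 = |N1 (nextPt ω v.1 e) - N1 v.1| ^ 2 := by
    rw [sq_abs]; rfl
  rw [h1]
  exact pow_le_pow_left₀ (abs_nonneg _) h 2

theorem main (_h1 : S_CH1) (h5 : S_CH5) (h6 : S_CH6) (h7 : S_CH7) (h8 : S_CH8) (hNL : S_NL)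
    (hHK : S_HK) (hG : S_GEO1) (hC : S_CONG) : S_DET := by
  intro d hd ω hω h0 K hK
  have : Nonempty (Fin d × Bool) := ⟨(⟨0, by omega⟩, true)⟩
  have hR : RevChain (nxO ω hω) revD := hG d ω hω
  set nx := nxO ω hω with hnx
  set x0 : Occ ω := ⟨0, h0⟩ with hx0
  set u : Occ ω → ℝ := fun v => N1 v.1 with hu
  obtain ⟨hmono, _, _, hconst, _⟩ := hC nx (Set.univ : Set (Occ ω)) (fun _ _ _ => Set.mem_univ _)
  have hnn : ∀ f : Occ ω → ℝ, (∀ x, 0 ≤ f x) → ∀ n x, 0 ≤ PRn nx f n x := by
    intro f hf n x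
    have := hmono (fun _ => 0) f (fun x _ => hf x) n x (Set.mem_univ x)
    rwa [hconst] at this
  have hVnn : ∀ x, 0 ≤ Vf (grad nx u) x := fun x =>
    mul_nonneg (by positivity) (Finset.sum_nonneg fun _ _ => sq_nonneg _)
  have hg2 : 0 ≤ g2 ω (0 : Fin d → ℤ) :=
    mul_nonneg (by positivity) (Finset.sum_nonneg fun _ _ => sq_nonneg _)
  have hK0 : 0 ≤ K := by
    have := hK 1
    simp only [SR, Finset.range_one, Finset.sum_singleton, PRn, Nat.cast_one, mul_one] at this
    exact hg2.trans this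
  obtain ⟨C, hC0, hheat⟩ := hHK d hd
  set C1 : ℝ := max 0 (Real.log C) with hC1
  set C2 : ℝ := 1 + d * Real.log 3 with hC2
  set C3 : ℝ := max 0 (max (PRn nx u 0 x0) (PRn nx u 1 x0)) with hC3
  obtain ⟨C', hC', hmain⟩ := hNL d (by omega) K C1 C2 C3 hK0 (le_max_left _ _)
    (by
      have : 0 ≤ Real.log 3 := Real.log_nonneg (by norm_num)
      positivity) (le_max_left _ _)
  refine ⟨C', hC', ?_⟩
  have hunn : ∀ x, 0 ≤ u x := fun x => N1_nonneg _
  have habs : (fun y => |u y|) = u := by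
    funext y; exact abs_of_nonneg (hunn y)
  refine hmain (fun n => ent nx x0 n) (fun n => PRn nx u n x0)
    (fun n => PRn nx (Vf (grad nx u)) n x0) ?_ ?_ (fun n => hnn u hunn n x0)
    (fun n => hnn _ hVnn n x0) ?_ ?_ ?_ ?_ ?_ ?_
  · refine monotone_nat_of_le_succ fun n => ?_
    have h := h5 nx revD hR x0 n
    have hpos : 0 ≤ (1 / 2) * ((Fintype.card (Fin d × Bool) : ℝ)⁻¹ * ∑ e, ∑' y,
        (pk nx x0 n (nx y e) - pk nx x0 (n + 1) y) ^ 2 /
          (pk nx x0 n (nx y e) + pk nx x0 (n + 1) y)) := by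
      refine mul_nonneg (by norm_num) (mul_nonneg (by positivity)
        (Finset.sum_nonneg fun e _ => tsum_nonneg fun y => div_nonneg (sq_nonneg _) ?_))
      have a1 : ∀ n y, 0 ≤ pk nx x0 n y := fun n y => hnn _ (fun z => by split_ifs <;> norm_num) n y
      exact add_nonneg (a1 _ _) (a1 _ _)
    linarith
  · have : ent nx x0 0 = 0 := by
      unfold ent pk
      simp only [PRn]
      rw [show (0 : ℝ) = ∑' _y : Occ ω, (0 : ℝ) from (tsum_zero).symm]
      congr 1
      funext y
      split_ifs <;> simp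
    exact this.ge
  · intro n
    have h := hK n
    refine le_trans ?_ h
    unfold SR
    refine Finset.sum_le_sum fun k _ => ?_
    exact hmono _ _ (fun x _ => Vf_le ω hω x) k x0 (Set.mem_univ _)
  · intro n
    have h := h6 nx revD hR u x0 n
    rw [habs] at h
    exact h
  · exact (le_max_left _ _).trans (le_max_right _ _)
  · exact (le_max_right _ _).trans (le_max_right _ _)
  · intro n hn
    have hnpos : (0 : ℝ) < n := by exact_mod_cast hn
    have hB : 0 < C * (n : ℝ) ^ (-((d : ℝ) / 2)) := by positivity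
    have h := h7 nx revD hR x0 n _ hB (hheat ω hω x0 n hn)
    have hlog : Real.log (C * (n : ℝ) ^ (-((d : ℝ) / 2))) =
        Real.log C - (d : ℝ) / 2 * Real.log n := by
      rw [Real.log_mul hC0.ne' (by positivity), Real.log_rpow hnpos]
      ring
    rw [hlog] at h
    have h2 : Real.log C ≤ C1 := le_max_right _ _
    linarith
  · intro n
    have h := h8 nx revD hR d (fun y : Occ ω => y.1) Subtype.val_injective x0 n
    have e1 : (fun y : Occ ω => N1 (y.1 - x0.1)) = u := by
      funext y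
      simp [hu, hx0]
    rw [e1] at h
    exact h

end Pool.Agent.Helper96.PC.DET

end
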